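import Pool.Agent.ISB.StmtsA

/-!
# Squad ISB, row KRB: components of weight `k`
-/

set_option autoImplicit false

namespace Pool.Agent.ISB.H75

open scoped Classical

theorem krb (hCal : CalStmt) (hIdl : IdlStmt) (hEig : EigStmt) (hGen : GenStmt) : KrbStmt := by
  intro F L _ _ _ r σ ζ hA A hS k hk s s' u hss hu
  obtain ⟨hmono, -, -, -, -, -, -, -⟩ := hCal F L
  obtain ⟨hdr, hid, -, hst⟩ := hIdl F L A hS.cl
  obtain ⟨-, hbr, hdec, hproj⟩ := hEig F L r σ ζ hA
  obtain ⟨π, hπ1, hπ2, hπ3⟩ := hproj k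
  have hDA : ∀ t, dr A t ≤ A := fun t => hdr 0 t (Nat.zero_le t)
  have hσ : ∀ t, ∀ a ∈ dr A t, σ a ∈ dr A t := hst σ hA.lie hS.st
  have hDs : dr A s' ≤ dr A s := hdr s s' hss
  obtain ⟨g1, -, -, -, g5, -, -⟩ := hGen F L r σ ζ hA A (dr A s') (hDA s') (hid s') (hσ s')
  obtain ⟨-, -, -, -, -, -, g7⟩ := hGen F L r σ ζ hA A (dr A s) (hDA s) (hid s) (hσ s)
  have hgen : ∀ χ, k + 1 ≤ χ → χ < r → ∀ z, z ∈ dr A s → z ∈ W σ ζ χ →
      z ∈ gen σ ζ r (dr A s) (k + 1) := by
    intro χ h1 h2 z h3 h4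
    exact LieSubalgebra.subset_lieSpan ⟨χ, h1, h2, h3, h4⟩
  set T : Submodule F L :=
    gen σ ζ r (dr A s) (k + 1) ⊔ br (A ⊓ W σ ζ 0) (dr A s' ⊓ W σ ζ k) with hT
  have hmain : dr A (u + 1) ≤ T.comap π := by
    have h1 : dr A (u + 1) ≤ br (dr A s') (gen σ ζ r (dr A s') k) :=
      hmono _ _ _ _ (hu.trans (g1 k)) hu
    refine h1.trans ((g5 k).trans ?_)
    refine iSup₂_le fun χ hχ => ?_
    rw [Finset.mem_Ico] at hχ
    unfold br
    rw [Submodule.span_le]
    rintro z ⟨a, ha, b, hb, rfl⟩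
    obtain ⟨c, hc, hac⟩ := hdec (dr A s') (hσ s') a ha
    show π ⁅a, b⁆ ∈ T
    rw [hac, sum_lie, map_sum]
    refine T.sum_mem fun j hj => ?_
    rw [Finset.mem_range] at hj
    have hcj := hc j
    have hW : ⁅c j, b⁆ ∈ W σ ζ (j + χ) := hbr j χ _ hcj.2 _ hb.2
    by_cases hjk : (j + χ) % r = k % r
    · rw [hπ2 (j + χ) hjk _ hW]
      rcases Nat.eq_or_lt_of_le hχ.1 with h | h
      · -- χ = k, j = 0
        subst h
        have hj0 : j = 0 := by
          have h2 : (j + k) % r = (0 + k) % r := by rw [zero_add]; exact hjk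
          have h3 : j % r = 0 % r := Nat.ModEq.add_right_cancel' k h2
          rwa [Nat.mod_eq_of_lt hj, Nat.zero_mod] at h3
        subst hj0
        refine Submodule.mem_sup_right (Submodule.subset_span ?_)
        exact ⟨c 0, ⟨hDA s' hcj.1, hcj.2⟩, b, hb, rfl⟩
      · have hjj : j + χ = k + r := by
          have h2 : k % r = k := Nat.mod_eq_of_lt hk
          rw [h2] at hjk
          have h3 : r ≤ j + χ := by
            by_contra h4
            rw [Nat.mod_eq_of_lt (by omega)] at hjk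
            omega
          have h5 : (j + χ) % r = j + χ - r := by
            rw [Nat.mod_eq_sub_mod h3, Nat.mod_eq_of_lt (by omega)]
          omega
        refine Submodule.mem_sup_left ?_
        refine g7 (k + 1) _ ?_ _ ?_
        · exact hgen j (by omega) hj _ (hDs hcj.1) hcj.2
        · exact hgen χ h hχ.2 _ (hDs hb.1) hb.2
    · rw [hπ3 (j + χ) hjk _ hW]
      exact T.zero_mem
  intro z hz
  have h1 := hmain hz.1
  have h2 : π z ∈ T := h1
  rwa [hπ1 z hz.2] at h2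

end Pool.Agent.ISB.H75
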